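import Pool.Agent.Lib_helper61.TB.DefsE
import Pool.Agent.Lib_helper61.TB.Gram

/-!
# Character sums and numbers of points over extensions of degree divisible by powers of `p`
-/

set_option autoImplicit false

namespace Pool.Agent.UI

open NumberField
open Pool.Agent.TT (residueSymbol)
open Pool.Agent.TF (Stratum strataSum strataCard)

/-- If all periods of a permutation are divisible by `m`, so is the number of elements. -/
theorem cl_period {X : Type*} [Fintype X] (f : Equiv.Perm X) (m : ℕ)
    (h : ∀ x, m ∣ Function.minimalPeriod f x) : m ∣ Fintype.card X := by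
  classical
  have h1 := MulAction.selfEquivSigmaOrbits (Subgroup.zpowers f) X
  rw [Fintype.card_congr h1, Fintype.card_sigma]
  refine Finset.dvd_sum fun ω _ => ?_
  have h2 := MulAction.minimalPeriod_eq_card (a := f) (b := ω.out)
  rw [← h2]
  exact h ω.out

/-- The Frobenius map of exponent `Q` on the points. -/
theorem cl_eval {K : Type} [Field K] {F : Type} [Field F] [Fintype F] {q : ℕ} [hq : Fact q.Prime]
    [Algebra (ZMod q) F] (φ : 𝓞 K →+* ZMod q) {M : ℕ} (G : MvPolynomial (Fin M) (𝓞 K))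
    (r₀ : ℕ) (x : Fin M → F) :
    G.eval₂ ((algebraMap (ZMod q) F).comp φ) (fun i => x i ^ q ^ r₀) =
      (G.eval₂ ((algebraMap (ZMod q) F).comp φ) x) ^ q ^ r₀ := by
  have hchar : CharP F q := charP_of_injective_algebraMap (algebraMap (ZMod q) F).injective q
  have h1 : (fun i => x i ^ q ^ r₀) = fun i => iterateFrobenius F q r₀ (x i) := by
    funext i
    rw [iterateFrobenius_def]
  have h2 : (G.eval₂ ((algebraMap (ZMod q) F).comp φ) x) ^ q ^ r₀ =
      iterateFrobenius F q r₀ (G.eval₂ ((algebraMap (ZMod q) F).comp φ) x) := by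
    rw [iterateFrobenius_def]
  have h3 : (iterateFrobenius F q r₀).comp ((algebraMap (ZMod q) F).comp φ) =
      (algebraMap (ZMod q) F).comp φ := by
    refine RingHom.ext fun a => ?_
    rw [RingHom.comp_apply, RingHom.comp_apply, iterateFrobenius_def, ← map_pow,
      ZMod.pow_card_pow]
  rw [h1, h2, MvPolynomial.hom_eval₂, h3]

/-- The number of the points at which the symbol has a given value different from `1` is divisible
by a high power of `p`. -/
theorem cl_dvd {K : Type} [Field K] {p a : ℕ} (hp : p.Prime) {F : Type} [Field F] [Fintype F]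
    {q : ℕ} [hq : Fact q.Prime] [Algebra (ZMod q) F] (φ : 𝓞 K →+* ZMod q) (hmq : p ^ a ∣ q - 1)
    {r k : ℕ} (hF : Fintype.card F = q ^ r) (hr : 0 < r) (hk : p ^ k ∣ r) {M : ℕ}
    (G : MvPolynomial (Fin M) (𝓞 K)) (z : ZMod q) (hz : z ≠ 0) (hz1 : z ≠ 1) :
    p ^ (k + 1 - a) ∣ Nat.card {x : Fin M → F // (G.eval₂ ((algebraMap (ZMod q) F).comp φ) x) ^
      ((Fintype.card F - 1) / p ^ a) = algebraMap (ZMod q) F z} := by
  classical
  obtain ⟨r₀, hr₀⟩ := hk
  have hr₀0 : 0 < r₀ := Nat.pos_of_ne_zero (by rintro rfl; omega)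
  have hq1 : 1 < q := hq.out.one_lt
  set Q := q ^ r₀ with hQ
  set e := (Fintype.card F - 1) / p ^ a with he
  -- the map on all points
  have hQF : ∀ y : F, y ^ Q ^ p ^ k = y := by
    intro y
    rw [hQ, ← pow_mul, mul_comm r₀, ← hr₀, ← hF, FiniteField.pow_card]
  have hiter : ∀ (b : ℕ) (x : Fin M → F),
      (fun (x : Fin M → F) (i : Fin M) => x i ^ Q)^[b] x = fun i => x i ^ Q ^ b := by
    intro b
    induction b with
    | zero => intro x; funext i; simp
    | succ b ih =>
      intro x
      rw [Function.iterate_succ_apply, ih]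
      funext i
      rw [← pow_mul, pow_succ']
  let X := {x : Fin M → F // (G.eval₂ ((algebraMap (ZMod q) F).comp φ) x) ^ e =
    algebraMap (ZMod q) F z}
  have hpres : ∀ x : Fin M → F, (G.eval₂ ((algebraMap (ZMod q) F).comp φ) x) ^ e =
      algebraMap (ZMod q) F z →
      (G.eval₂ ((algebraMap (ZMod q) F).comp φ) (fun i => x i ^ Q)) ^ e =
        algebraMap (ZMod q) F z := by
    intro x hx
    rw [hQ, cl_eval, ← pow_mul, mul_comm, pow_mul, hx, ← map_pow, ZMod.pow_card_pow]
  let g : X → X := fun x => ⟨fun i => x.1 i ^ Q, hpres x.1 x.2⟩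
  have hg : ∀ (b : ℕ) (x : X), ((g^[b] x : X) : Fin M → F) = fun i => x.1 i ^ Q ^ b := by
    intro b
    induction b with
    | zero => intro x; funext i; simp
    | succ b ih =>
      intro x
      rw [Function.iterate_succ_apply, ih]
      funext i
      change (x.1 i ^ Q) ^ Q ^ b = _
      rw [← pow_mul, pow_succ']
  have hgk : ∀ x : X, g^[p ^ k] x = x := by
    intro x
    apply Subtype.ext
    rw [hg]
    funext i
    exact hQF _
  have hpk : 0 < p ^ k := pow_pos hp.pos k
  have hbij : Function.Bijective g := by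
    have h1 : g ∘ g^[p ^ k - 1] = id := by
      funext x
      have h2 : g (g^[p ^ k - 1] x) = g^[p ^ k - 1 + 1] x := (Function.iterate_succ_apply' g _ x).symm
      rw [Function.comp_apply, h2, Nat.sub_add_cancel hpk, hgk, id]
    have h3 : g^[p ^ k - 1] ∘ g = id := by
      funext x
      have h2 : g^[p ^ k - 1] (g x) = g^[p ^ k - 1 + 1] x := (Function.iterate_succ_apply g _ x).symm
      rw [Function.comp_apply, h2, Nat.sub_add_cancel hpk, hgk, id]
    exact ⟨Function.LeftInverse.injective (g := g^[p ^ k - 1]) (congrFun h3),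
      Function.RightInverse.surjective (g := g^[p ^ k - 1]) (congrFun h1)⟩
  let f : Equiv.Perm X := Equiv.ofBijective g hbij
  have hXf : Fintype X := Fintype.ofFinite X
  have hper : ∀ x : X, p ^ (k + 1 - a) ∣ Function.minimalPeriod f x := by
    intro x
    have h1 : Function.minimalPeriod f x ∣ p ^ k := by
      apply Function.IsPeriodicPt.minimalPeriod_dvd
      exact hgk x
    obtain ⟨b, hb, hb2⟩ := (Nat.dvd_prime_pow hp).mp h1
    rw [hb2]
    apply pow_dvd_pow
    by_contra hcon
    push Not at hcon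
    have hba : b + a ≤ k := by omega
    -- the point is fixed by the Frobenius map of exponent `Q ^ p ^ b`
    have h2 : g^[p ^ b] x = x := by
      have h3 := Function.iterate_minimalPeriod (f := g) (x := x)
      have h4 : Function.minimalPeriod g x = p ^ b := hb2
      rw [h4] at h3
      exact h3
    have h3 := congrArg (fun y : X => (y : Fin M → F)) h2
    simp only [hg] at h3
    set y := G.eval₂ ((algebraMap (ZMod q) F).comp φ) x.1 with hy
    have h4 : y ^ Q ^ p ^ b = y := by
      have h5 : Q ^ p ^ b = q ^ (r₀ * p ^ b) := by rw [hQ, ← pow_mul]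
      rw [h5]
      have h6 := cl_eval φ G (r₀ * p ^ b) x.1
      rw [← h6, hy]
      congr 1
      rw [← h5]
      exact h3
    have hx2 : y ^ e = algebraMap (ZMod q) F z := x.2
    -- the exponent `e` is divisible by `Q ^ p ^ b - 1`
    set N := Q ^ p ^ b with hN
    have hN0 : 1 < N := by
      apply Nat.one_lt_pow (pow_ne_zero _ hp.ne_zero)
      exact Nat.one_lt_pow hr₀0.ne' hq1
    have h5 : Fintype.card F = N ^ p ^ (k - b) := by
      rw [hF, hN, hQ, hr₀, ← pow_mul, ← pow_mul]
      congr 1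
      rw [← pow_add, Nat.add_sub_cancel' hb, mul_comm]
    have h6 : (N - 1) ∣ e := by
      have h7 : p ^ a ∣ ∑ i ∈ Finset.range (p ^ (k - b)), N ^ i := by
        have h8 : ∀ i, N ^ i ≡ 1 [MOD p ^ a] := by
          intro i
          have h9 : q ≡ 1 [MOD p ^ a] := ((Nat.modEq_iff_dvd' hq1.le).mpr hmq).symm
          have h10 := h9.pow (r₀ * p ^ b * i)
          rw [one_pow] at h10
          have h11 : N ^ i = q ^ (r₀ * p ^ b * i) := by
            rw [hN, hQ, ← pow_mul, ← pow_mul, mul_assoc]
          rw [h11]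
          exact h10
        have h12 : ∑ i ∈ Finset.range (p ^ (k - b)), N ^ i ≡
            ∑ i ∈ Finset.range (p ^ (k - b)), 1 [MOD p ^ a] :=
          Nat.ModEq.sum fun i _ => h8 i
        rw [Finset.sum_const, Finset.card_range, smul_eq_mul, mul_one] at h12
        have h13 : p ^ (k - b) ≡ 0 [MOD p ^ a] :=
          (Nat.modEq_zero_iff_dvd).mpr (pow_dvd_pow p (by omega))
        exact (Nat.modEq_zero_iff_dvd).mp (h12.trans h13)
      obtain ⟨c, hc⟩ := h7
      have h8 : Fintype.card F - 1 = (p ^ a) * (c * (N - 1)) := by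
        have h14 : (∑ i ∈ Finset.range (p ^ (k - b)), N ^ i) * (N - 1) + 1 =
            N ^ p ^ (k - b) := by
          zify [hN0.le]
          rw [geom_sum_mul]
          ring
        rw [h5, ← h14, Nat.add_sub_cancel, hc, mul_assoc]
      rw [he, h8, Nat.mul_div_cancel_left _ (pow_pos hp.pos a)]
      exact Dvd.intro_left c rfl
    have h7 : y ≠ 0 := by
      intro h0
      rw [h0] at hx2
      have h8 : e ≠ 0 := by
        intro h9
        rw [h9, pow_zero] at hx2
        apply hz1
        apply (algebraMap (ZMod q) F).injective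
        rw [← hx2, map_one]
      rw [zero_pow h8] at hx2
      apply hz
      apply (algebraMap (ZMod q) F).injective
      rw [← hx2, map_zero]
    have h8 : y ^ (N - 1) = 1 := by
      have h9 : y ^ (N - 1) * y = 1 * y := by
        rw [← pow_succ, Nat.sub_add_cancel hN0.le, h4, one_mul]
      exact mul_right_cancel₀ h7 h9
    obtain ⟨c, hc⟩ := h6
    rw [hc, pow_mul, h8, one_pow] at hx2
    apply hz1
    apply (algebraMap (ZMod q) F).injective
    rw [← hx2, map_one]
  have h1 := cl_period f _ hper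
  rwa [← Nat.card_eq_fintype_card] at h1

/-- The sum of the symbols and the number of points in an extension of degree divisible by
`p ^ k`. -/
theorem cl_strata {K : Type} [Field K] {p a : ℕ} (hp : p.Prime) {ζ : 𝓞 K}
    {C : Type} [NormedField C] [IsUltrametricDist C] (hp1 : ‖(p : C)‖ < 1)
    (ι : K →+* C) (hι : ∀ x : 𝓞 K, ‖ι (x : K)‖ ≤ 1) {s : ℕ} (S : Fin s → Stratum K) {F : Type}
    [Field F] [Fintype F] {q : ℕ} [hq : Fact q.Prime] [Algebra (ZMod q) F] (φ : 𝓞 K →+* ZMod q)
    (hφ : IsPrimitiveRoot (φ ζ) (p ^ a)) (hmq : p ^ a ∣ q - 1) {r k : ℕ}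
    (hF : Fintype.card F = q ^ r) (hr : 0 < r) (hk : p ^ k ∣ r) :
    ‖ι (strataSum (p ^ a) ζ ((algebraMap (ZMod q) F).comp φ) S : 𝓞 K) -
      ((strataCard ((algebraMap (ZMod q) F).comp φ) S : ℤ) : C)‖ ≤ ‖(p : C)‖ ^ (k + 1 - a) := by
  classical
  set φr := (algebraMap (ZMod q) F).comp φ with hφr
  set e := (Fintype.card F - 1) / p ^ a with he
  have hpa : 0 < p ^ a := pow_pos hp.pos a
  have hζr : IsPrimitiveRoot (φr ζ) (p ^ a) :=
    hφ.map_of_injective (algebraMap (ZMod q) F).injective
  have hdvd : p ^ a ∣ Fintype.card F - 1 := by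
    rw [hF]
    have h1 : q ≡ 1 [MOD p ^ a] := ((Nat.modEq_iff_dvd' hq.out.one_lt.le).mpr hmq).symm
    have h2 := h1.pow r
    rw [one_pow] at h2
    exact (Nat.modEq_iff_dvd' (Nat.one_le_pow _ _ hq.out.pos)).mp h2.symm
  have hcard1 : 1 < Fintype.card F := Fintype.one_lt_card
  have he0 : 0 < e := Nat.div_pos (Nat.le_of_dvd (by omega) hdvd) hpa
  let g : 𝓞 K →+* C := ι.comp (algebraMap (𝓞 K) K)
  have hone : ∀ (M : ℕ) (G : MvPolynomial (Fin M) (𝓞 K)),
      ‖g (∑ x : Fin M → F, residueSymbol (p ^ a) ζ φr (G.eval₂ φr x)) -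
        ((Nat.card {x : Fin M → F // G.eval₂ φr x ≠ 0} : ℤ) : C)‖ ≤ ‖(p : C)‖ ^ (k + 1 - a) := by
    intro M G
    -- the number of points as a sum over the values of the symbol
    have h1 : ((Nat.card {x : Fin M → F // G.eval₂ φr x ≠ 0} : ℤ) : C) =
        ∑ j : Fin (p ^ a), ∑ x : Fin M → F,
          if (G.eval₂ φr x) ^ e = φr ζ ^ (j : ℕ) then (1 : C) else 0 := by
      rw [Finset.sum_comm, Nat.card_eq_fintype_card, Fintype.card_subtype, Finset.card_filter]
      push_cast
      refine Finset.sum_congr rfl fun x _ => ?_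
      set y := G.eval₂ φr x with hy
      by_cases hy0 : y = 0
      · rw [if_neg (not_not.mpr hy0)]
        symm
        apply Finset.sum_eq_zero
        intro j _
        rw [if_neg]
        rw [hy0, zero_pow he0.ne']
        exact fun h => pow_ne_zero _ (hζr.ne_zero hpa.ne') h.symm
      · rw [if_pos hy0]
        have h2 : (y ^ e) ^ p ^ a = 1 := by
          rw [← pow_mul, he, Nat.div_mul_cancel hdvd, FiniteField.pow_card_sub_one_eq_one y hy0]
        have : NeZero (p ^ a) := ⟨hpa.ne'⟩
        obtain ⟨i, hi, hi2⟩ := hζr.eq_pow_of_pow_eq_one h2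
        rw [Finset.sum_eq_single (⟨i, hi⟩ : Fin (p ^ a))]
        · rw [if_pos hi2.symm]
        · intro j _ hj
          rw [if_neg]
          rw [← hi2]
          intro h
          apply hj
          apply Fin.ext
          exact (hζr.pow_inj hi j.2 h).symm
        · intro h
          exact absurd (Finset.mem_univ _) h
    have h2 : g (∑ x : Fin M → F, residueSymbol (p ^ a) ζ φr (G.eval₂ φr x)) =
        ∑ j : Fin (p ^ a), ∑ x : Fin M → F,
          if (G.eval₂ φr x) ^ e = φr ζ ^ (j : ℕ) then g (ζ ^ (j : ℕ)) else 0 := by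
      rw [Finset.sum_comm, map_sum]
      refine Finset.sum_congr rfl fun x _ => ?_
      unfold residueSymbol
      rw [map_sum]
      refine Finset.sum_congr rfl fun j _ => ?_
      rw [apply_ite g, map_zero]
    rw [h1, h2, ← Finset.sum_sub_distrib]
    refine IsUltrametricDist.norm_sum_le_of_forall_le_of_nonneg (by positivity) fun j _ => ?_
    have h3 : (∑ x : Fin M → F, if (G.eval₂ φr x) ^ e = φr ζ ^ (j : ℕ) then g (ζ ^ (j : ℕ)) else 0) -
        (∑ x : Fin M → F, if (G.eval₂ φr x) ^ e = φr ζ ^ (j : ℕ) then (1 : C) else 0) =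
        (Nat.card {x : Fin M → F // (G.eval₂ φr x) ^ e = φr ζ ^ (j : ℕ)} : C) *
          (g (ζ ^ (j : ℕ)) - 1) := by
      rw [← Finset.sum_sub_distrib, Nat.card_eq_fintype_card, Fintype.card_subtype,
        Finset.card_filter]
      push_cast
      rw [Finset.sum_mul]
      refine Finset.sum_congr rfl fun x _ => ?_
      split_ifs
      · rw [one_mul]
      · rw [sub_self, zero_mul]
    rw [h3, norm_mul]
    have h4 : ‖g (ζ ^ (j : ℕ)) - 1‖ ≤ 1 := by
      have h5 := IsUltrametricDist.norm_add_le_max (g (ζ ^ (j : ℕ))) (-1)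
      rw [norm_neg, norm_one, ← sub_eq_add_neg] at h5
      exact h5.trans (max_le (hι _) le_rfl)
    by_cases hj : φ ζ ^ (j : ℕ) = 1
    · have h5 : (j : ℕ) = 0 := by
        have h6 := hφ.dvd_of_pow_eq_one _ hj
        exact Nat.eq_zero_of_dvd_of_lt h6 j.2
      have h6 : g (ζ ^ (j : ℕ)) - 1 = 0 := by rw [h5, pow_zero, map_one, sub_self]
      rw [h6, norm_zero, mul_zero]
      positivity
    · have h5 := cl_dvd (F := F) hp φ hmq hF hr hk G (φ ζ ^ (j : ℕ))
        (pow_ne_zero _ (hφ.ne_zero hpa.ne')) hj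
      have h6 : φr ζ ^ (j : ℕ) = algebraMap (ZMod q) F (φ ζ ^ (j : ℕ)) := by
        rw [map_pow]
        rfl
      rw [← h6] at h5
      obtain ⟨c, hc⟩ := h5
      have h7 : (Nat.card {x : Fin M → F // (G.eval₂ φr x) ^ e = φr ζ ^ (j : ℕ)} : C) =
          (p : C) ^ (k + 1 - a) * (c : C) := by
        rw [he, hc]
        push_cast
        rfl
      rw [h7, norm_mul, norm_pow]
      calc ‖(p : C)‖ ^ (k + 1 - a) * ‖(c : C)‖ * ‖g (ζ ^ (j : ℕ)) - 1‖ ≤
          ‖(p : C)‖ ^ (k + 1 - a) * 1 * 1 := by
            gcongr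
            exact IsUltrametricDist.norm_natCast_le_one C c
        _ = ‖(p : C)‖ ^ (k + 1 - a) := by ring
  have h3 : ι (strataSum (p ^ a) ζ φr S : 𝓞 K) - ((strataCard φr S : ℤ) : C) =
      ∑ i, ((S i).c : C) * (g (∑ x : Fin (S i).M → F,
        residueSymbol (p ^ a) ζ φr ((S i).G.eval₂ φr x)) -
        ((Nat.card {x : Fin (S i).M → F // (S i).G.eval₂ φr x ≠ 0} : ℤ) : C)) := by
    change g (strataSum (p ^ a) ζ φr S) - _ = _
    unfold strataSum strataCard
    rw [map_sum, Int.cast_sum, ← Finset.sum_sub_distrib]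
    apply Finset.sum_congr rfl
    intro i _
    rw [map_mul, map_intCast, Int.cast_mul, mul_sub]
  rw [h3]
  refine IsUltrametricDist.norm_sum_le_of_forall_le_of_nonneg (by positivity) fun i _ => ?_
  rw [norm_mul]
  exact (mul_le_of_le_one_left (norm_nonneg _) (IsUltrametricDist.norm_intCast_le_one C _)).trans
    (hone _ _)

end Pool.Agent.UI
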