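import Pool.Agent.Lib_helper28.TE28.Res

/-!
# Power sums and the number of roots congruent to one
-/

set_option autoImplicit false

namespace Pool.Agent.UI

open Filter Topology
open Pool.Agent.RF (nv norm_p_lt nsub_le)

section

variable {C : Type} [NormedField C] [IsUltrametricDist C] {p : ℕ}

/-- The `p`-power map does not change the distance to `1` being smaller than `1`. -/
theorem ms_pow (hp : p.Prime) (hp1 : ‖(p : C)‖ < 1) {x : C} (hx : ‖x‖ ≤ 1) (k : ℕ) :
    ‖(x - 1) ^ p ^ k - (x ^ p ^ k - 1)‖ < 1 := by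
  let y : nv C := ⟨x, hx⟩
  obtain ⟨r, hr⟩ := exists_add_pow_prime_pow_eq hp y (-1) k
  have h1 : (x - 1) ^ p ^ k = x ^ p ^ k + (-1) ^ p ^ k + (p : C) * (x * (-1) * (r : C)) := by
    have h2 := congrArg (nv C).subtype hr
    simp only [map_pow, map_add, map_neg, map_one, map_mul, map_natCast] at h2
    rw [sub_eq_add_neg]
    have h3 : (nv C).subtype y = x := rfl
    have h4 : (nv C).subtype r = (r : C) := rfl
    rw [h3, h4] at h2
    rw [h2]
    ring
  have h2 : ‖(p : C) * (x * (-1) * (r : C))‖ < 1 := by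
    rw [norm_mul, norm_mul, norm_mul, norm_neg, norm_one, mul_one]
    have h3 : ‖x‖ * ‖(r : C)‖ ≤ 1 := mul_le_one₀ hx (norm_nonneg _) r.2
    calc ‖(p : C)‖ * (‖x‖ * ‖(r : C)‖) ≤ ‖(p : C)‖ * 1 := by gcongr
      _ < 1 := by rw [mul_one]; exact hp1
  have h3 : ‖(-1 : C) ^ p ^ k + 1‖ < 1 := by
    rcases hp.eq_two_or_odd' with rfl | hodd
    · rcases Nat.eq_zero_or_pos k with rfl | hk
      · simp
      · have heven : Even (2 ^ k) := (Nat.even_pow.mpr ⟨even_two, hk.ne'⟩)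
        rw [heven.neg_one_pow, one_add_one_eq_two]
        exact_mod_cast hp1
    · rw [(hodd.pow : Odd (p ^ k)).neg_one_pow, neg_add_cancel, norm_zero]
      exact zero_lt_one
  have h4 : (x - 1) ^ p ^ k - (x ^ p ^ k - 1) = ((-1) ^ p ^ k + 1) +
      (p : C) * (x * (-1) * (r : C)) := by
    rw [h1]
    ring
  rw [h4]
  exact lt_of_le_of_lt (IsUltrametricDist.norm_add_le_max _ _) (max_lt h3 h2)

theorem ms_pow_iff (hp : p.Prime) (hp1 : ‖(p : C)‖ < 1) {x : C} (hx : ‖x‖ ≤ 1) (k : ℕ) :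
    ‖x ^ p ^ k - 1‖ < 1 ↔ ‖x - 1‖ < 1 := by
  have h := ms_pow hp hp1 hx k
  have hk : p ^ k ≠ 0 := pow_ne_zero _ hp.ne_zero
  constructor
  · intro h1
    have h2 : ‖(x - 1) ^ p ^ k‖ < 1 := by
      have h3 : (x - 1) ^ p ^ k = ((x - 1) ^ p ^ k - (x ^ p ^ k - 1)) + (x ^ p ^ k - 1) := by ring
      rw [h3]
      exact lt_of_le_of_lt (IsUltrametricDist.norm_add_le_max _ _) (max_lt h h1)
    rw [norm_pow] at h2
    by_contra hcon
    push Not at hcon
    exact absurd h2 (not_lt.mpr (one_le_pow₀ hcon))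
  · intro h1
    have h3 : x ^ p ^ k - 1 = (x - 1) ^ p ^ k - ((x - 1) ^ p ^ k - (x ^ p ^ k - 1)) := by ring
    rw [h3]
    have h2 : ‖(x - 1) ^ p ^ k‖ < 1 := by
      rw [norm_pow]
      exact pow_lt_one₀ (norm_nonneg _) h1 hk
    have h4 := IsUltrametricDist.norm_add_le_max ((x - 1) ^ p ^ k)
      (-((x - 1) ^ p ^ k - (x ^ p ^ k - 1)))
    rw [norm_neg, ← sub_eq_add_neg] at h4
    exact lt_of_le_of_lt h4 (max_lt h2 h)

theorem ms_norm_of_near {x : C} (h : ‖x - 1‖ < 1) : ‖x‖ = 1 := by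
  have h1 : x = (x - 1) + 1 := by ring
  rw [h1]
  have h2 : ‖x - 1‖ ≠ ‖(1 : C)‖ := by
    rw [norm_one]
    exact h.ne
  rw [IsUltrametricDist.norm_add_eq_max_of_norm_ne_norm h2, norm_one, max_eq_right h.le]

theorem ms_pow_near {x : C} {c : ℝ} (hx : ‖x‖ ≤ 1) (h : ‖x - 1‖ ≤ c) (i : ℕ) :
    ‖x ^ i - 1‖ ≤ c := by
  have hc : 0 ≤ c := (norm_nonneg _).trans h
  induction i with
  | zero => simpa using hc
  | succ i ih =>
    have h1 : x ^ (i + 1) - 1 = (x ^ i - 1) * x + (x - 1) := by ring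
    rw [h1]
    refine (IsUltrametricDist.norm_add_le_max _ _).trans (max_le ?_ h)
    rw [norm_mul]
    exact (mul_le_of_le_one_right (norm_nonneg _) hx).trans ih

/-- The `p`-power powers of an element near `1` converge to `1`. -/
theorem ms_tendsto (hp1 : ‖(p : C)‖ < 1) {x : C} (h : ‖x - 1‖ < 1) :
    Tendsto (fun k : ℕ => x ^ p ^ k) atTop (𝓝 1) := by
  have hx := ms_norm_of_near h
  set c : ℝ := max ‖(p : C)‖ ‖x - 1‖ with hc
  have hc1 : c < 1 := max_lt hp1 h
  have hc0 : 0 ≤ c := (norm_nonneg _).trans (le_max_left _ _)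
  have key : ∀ k : ℕ, ‖x ^ p ^ k - 1‖ ≤ c ^ (k + 1) := by
    intro k
    induction k with
    | zero =>
      rw [pow_zero, pow_one, zero_add, pow_one]
      exact le_max_right _ _
    | succ k ih =>
      set y := x ^ p ^ k with hy
      have hy1 : ‖y‖ = 1 := by rw [hy, norm_pow, hx, one_pow]
      have hyc : ‖y - 1‖ ≤ c := by
        rw [hy]
        exact ms_pow_near hx.le (le_max_right _ _) _
      have h1 : x ^ p ^ (k + 1) - 1 = (∑ i ∈ Finset.range p, y ^ i) * (y - 1) := by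
        rw [geom_sum_mul, hy, ← pow_mul, pow_succ]
      have h2 : ‖∑ i ∈ Finset.range p, y ^ i‖ ≤ c := by
        have h3 : ∑ i ∈ Finset.range p, y ^ i = (p : C) + ∑ i ∈ Finset.range p, (y ^ i - 1) := by
          rw [Finset.sum_sub_distrib]
          simp
        rw [h3]
        refine (IsUltrametricDist.norm_add_le_max _ _).trans (max_le (le_max_left _ _) ?_)
        exact IsUltrametricDist.norm_sum_le_of_forall_le_of_nonneg hc0
          (fun i _ => ms_pow_near hy1.le hyc i)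
      rw [h1, norm_mul, pow_succ', pow_succ']
      have h4 : ‖y - 1‖ ≤ c * c ^ k := by rw [← pow_succ']; exact ih
      exact mul_le_mul h2 h4 (norm_nonneg _) hc0
  rw [tendsto_iff_norm_sub_tendsto_zero]
  refine squeeze_zero (fun k => norm_nonneg _) key ?_
  have h5 := (tendsto_pow_atTop_nhds_zero_of_lt_one hc0 hc1).comp (tendsto_add_atTop_nat 1)
  exact h5

/-- The averages of the powers. -/
theorem ms_sum (hp : p.Prime) (hp1 : ‖(p : C)‖ < 1) {x : C} {e : ℕ} (he : 0 < e)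
    (h : ‖x ^ e - 1‖ < 1) [Decidable (‖x - 1‖ < 1)] :
    Tendsto (fun k : ℕ => ∑ i ∈ Finset.range e, x ^ ((i + 1) * p ^ k)) atTop
      (𝓝 (if ‖x - 1‖ < 1 then (e : C) else 0)) := by
  have hx : ‖x‖ = 1 := by
    have h1 := ms_norm_of_near h
    rw [norm_pow] at h1
    exact (pow_eq_one_iff_of_nonneg (norm_nonneg _) he.ne').mp h1
  split_ifs with hx1
  · have h1 : (e : C) = ∑ i ∈ Finset.range e, (1 : C) := by simp
    rw [h1]
    apply tendsto_finsetSum
    intro i _
    have h2 := (ms_tendsto hp1 hx1).pow (i + 1)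
    rw [one_pow] at h2
    refine h2.congr fun k => ?_
    rw [← pow_mul, mul_comm]
  · -- the distance to `1` of the powers is `1`
    have h1 : ∀ k : ℕ, 1 ≤ ‖x ^ p ^ k - 1‖ := by
      intro k
      by_contra hcon
      push Not at hcon
      exact hx1 ((ms_pow_iff hp hp1 hx.le k).mp hcon)
    have h2 : Tendsto (fun k : ℕ => ((x ^ e) ^ p ^ k - 1)) atTop (𝓝 0) := by
      have h3 := (ms_tendsto hp1 h).sub_const 1
      rwa [sub_self] at h3
    rw [tendsto_zero_iff_norm_tendsto_zero] at h2 ⊢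
    refine squeeze_zero (fun k => norm_nonneg _) (fun k => ?_) h2
    have h4 : (∑ i ∈ Finset.range e, x ^ ((i + 1) * p ^ k)) * (x ^ p ^ k - 1) =
        x ^ p ^ k * ((x ^ e) ^ p ^ k - 1) := by
      have h5 : ∑ i ∈ Finset.range e, x ^ ((i + 1) * p ^ k) =
          x ^ p ^ k * ∑ i ∈ Finset.range e, (x ^ p ^ k) ^ i := by
        rw [Finset.mul_sum]
        refine Finset.sum_congr rfl fun i _ => ?_
        rw [← pow_succ', ← pow_mul, mul_comm]
      rw [h5, mul_assoc, geom_sum_mul, ← pow_mul, ← pow_mul, mul_comm e]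
    have h6 := congrArg norm h4
    rw [norm_mul, norm_mul, norm_pow, hx, one_pow, one_mul] at h6
    calc ‖∑ i ∈ Finset.range e, x ^ ((i + 1) * p ^ k)‖ =
        ‖∑ i ∈ Finset.range e, x ^ ((i + 1) * p ^ k)‖ * 1 := (mul_one _).symm
      _ ≤ ‖∑ i ∈ Finset.range e, x ^ ((i + 1) * p ^ k)‖ * ‖x ^ p ^ k - 1‖ := by
          gcongr
          exact h1 k
      _ = _ := h6

open Classical in
/-- The number of the elements of `Λ` that are congruent to `1`. -/
noncomputable def nearOne (Λ : Multiset C) : ℕ := (Λ.filter fun x => ‖x - 1‖ < 1).card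

theorem ms_multi (hp : p.Prime) (hp1 : ‖(p : C)‖ < 1) {e : ℕ} (he : 0 < e) (Λ : Multiset C)
    (h : ∀ x ∈ Λ, ‖x ^ e - 1‖ < 1) :
    Tendsto (fun k : ℕ => ∑ i ∈ Finset.range e, (Λ.map fun x => x ^ ((i + 1) * p ^ k)).sum) atTop
      (𝓝 ((e : C) * (nearOne Λ : C))) := by
  classical
  induction Λ using Multiset.induction with
  | empty => simp [nearOne]
  | cons x Λ ih =>
    have h1 := ih fun y hy => h y (Multiset.mem_cons_of_mem hy)
    have h2 := ms_sum hp hp1 he (h x (Multiset.mem_cons_self x Λ))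
    have h3 := h2.add h1
    have h4 : (if ‖x - 1‖ < 1 then (e : C) else 0) + (e : C) * (nearOne Λ : C) =
        (e : C) * (nearOne (x ::ₘ Λ) : C) := by
      unfold nearOne
      by_cases hx : ‖x - 1‖ < 1
      · rw [if_pos hx, Multiset.filter_cons_of_pos (p := fun x : C => ‖x - 1‖ < 1) _ hx,
          Multiset.card_cons]
        push_cast
        ring
      · rw [if_neg hx, Multiset.filter_cons_of_neg (p := fun x : C => ‖x - 1‖ < 1) _ hx, zero_add]
    rw [h4] at h3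
    refine h3.congr fun k => ?_
    rw [← Finset.sum_add_distrib]
    refine Finset.sum_congr rfl fun i _ => ?_
    rw [Multiset.map_cons, Multiset.sum_cons]

/-- **The multiset lemma.** -/
theorem ms_main [CharZero C] (hp : p.Prime) (hp1 : ‖(p : C)‖ < 1) (Λ Λ' : Multiset C)
    (h : ∀ x ∈ Λ, ∃ e : ℕ, 0 < e ∧ ‖x ^ e - 1‖ < 1) (h' : ∀ x ∈ Λ', ∃ e : ℕ, 0 < e ∧ ‖x ^ e - 1‖ < 1)
    (b : ℕ → ℝ) (hb : Tendsto b atTop (𝓝 0))
    (hs : ∀ k r : ℕ, 0 < r → p ^ k ∣ r →
      ‖(Λ.map fun x => x ^ r).sum - (Λ'.map fun x => x ^ r).sum‖ ≤ b k) :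
    nearOne Λ = nearOne Λ' := by
  classical
  -- a common exponent
  have hcom : ∀ M : Multiset C, (∀ x ∈ M, ∃ e : ℕ, 0 < e ∧ ‖x ^ e - 1‖ < 1) →
      ∃ e : ℕ, 0 < e ∧ ∀ x ∈ M, ‖x ^ e - 1‖ < 1 := by
    intro M
    induction M using Multiset.induction with
    | empty => exact fun _ => ⟨1, one_pos, fun x hx => absurd hx (Multiset.notMem_zero x)⟩
    | cons x M ih =>
      intro hM
      obtain ⟨e, he, h1⟩ := ih fun y hy => hM y (Multiset.mem_cons_of_mem hy)
      obtain ⟨e', he', h2⟩ := hM x (Multiset.mem_cons_self x M)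
      have hmul : ∀ (y : C) (a b : ℕ), ‖y ^ a - 1‖ < 1 → ‖y ^ (a * b) - 1‖ < 1 := by
        intro y a b hy
        rw [pow_mul]
        exact lt_of_le_of_lt (ms_pow_near (ms_norm_of_near hy).le le_rfl b) hy
      refine ⟨e * e', Nat.mul_pos he he', fun y hy => ?_⟩
      rcases Multiset.mem_cons.mp hy with rfl | hy
      · rw [mul_comm]
        exact hmul y e' e h2
      · exact hmul y e e' (h1 y hy)
  obtain ⟨e, he, h1⟩ := hcom (Λ + Λ') (by
    intro x hx
    rcases Multiset.mem_add.mp hx with hx | hx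
    · exact h x hx
    · exact h' x hx)
  have t1 := ms_multi hp hp1 he Λ fun x hx => h1 x (Multiset.mem_add.mpr (Or.inl hx))
  have t2 := ms_multi hp hp1 he Λ' fun x hx => h1 x (Multiset.mem_add.mpr (Or.inr hx))
  have t3 := t1.sub t2
  have t4 : Tendsto (fun k : ℕ =>
      ∑ i ∈ Finset.range e, (Λ.map fun x => x ^ ((i + 1) * p ^ k)).sum -
        ∑ i ∈ Finset.range e, (Λ'.map fun x => x ^ ((i + 1) * p ^ k)).sum) atTop (𝓝 0) := by
    rw [tendsto_zero_iff_norm_tendsto_zero]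
    refine squeeze_zero (fun k => norm_nonneg _) (fun k => ?_) hb
    rw [← Finset.sum_sub_distrib]
    have hb0 : 0 ≤ b k := (norm_nonneg _).trans (hs k (p ^ k) (pow_pos hp.pos k) dvd_rfl)
    refine IsUltrametricDist.norm_sum_le_of_forall_le_of_nonneg hb0 fun i _ => ?_
    exact hs k ((i + 1) * p ^ k) (Nat.mul_pos (Nat.succ_pos i) (pow_pos hp.pos k))
      (Dvd.intro_left _ rfl)
  have t5 := tendsto_nhds_unique t3 t4
  rw [← mul_sub, mul_eq_zero] at t5
  rcases t5 with t5 | t5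
  · exact absurd (by exact_mod_cast t5) he.ne'
  · rw [sub_eq_zero] at t5
    exact_mod_cast t5

end

end Pool.Agent.UI
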