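import Pool.Agent.Lib_helper46.UI.Defs
import Pool.Agent.Lib_helper61.TB.Dens
import Pool.Agent.Lib_helper87.UB.C1
import Pool.Agent.Lib_helper87.UB.C2
import Pool.Agent.Lib_helper7.TE.Tools

/-!
# Unipotent elements and Tate classes: the proof
-/

set_option autoImplicit false

namespace Pool.Agent.UI

open NumberField Topology Polynomial
open Pool.Agent.TT (Qbar)
open Pool.Agent.TB (fb_dense)
open Pool.Agent.UB (HT ht_group ht_mult)

section cont

variable {k : Type} [Field k] [TopologicalSpace k] [IsTopologicalRing k] {m : ℕ}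

theorem ui_cont_eval (a : k) :
    Continuous fun A : Matrix (Fin m) (Fin m) k => A.charpoly.eval a := by
  have h1 : (fun A : Matrix (Fin m) (Fin m) k => A.charpoly.eval a) =
      fun A : Matrix (Fin m) (Fin m) k => (Matrix.scalar (Fin m) a - A).det := by
    funext A
    rw [Matrix.eval_charpoly]
  rw [h1]
  exact Continuous.matrix_det (continuous_const.sub continuous_id)

/-- The Taylor coefficients of the characteristic polynomial at `1` are continuous. -/
theorem ui_cont_taylor (i : ℕ) :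
    Continuous fun A : Matrix (Fin m) (Fin m) k => (taylor 1 A.charpoly).coeff i := by
  set U := Matrix.charpoly.univ k (Fin m) with hU
  set u := (taylor 1 U).coeff i with hu
  have h1 : (fun A : Matrix (Fin m) (Fin m) k => (taylor 1 A.charpoly).coeff i) =
      fun A : Matrix (Fin m) (Fin m) k =>
        MvPolynomial.eval (fun ij : Fin m × Fin m => A ij.1 ij.2) u := by
    funext A
    have h2 : A.charpoly = U.map (MvPolynomial.eval (fun ij : Fin m × Fin m => A ij.1 ij.2)) := by
      have h3 := Matrix.charpoly.univ_map_eval₂Hom (Fin m) (RingHom.id k)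
        (fun ij : Fin m × Fin m => A ij.1 ij.2)
      exact h3.symm
    rw [h2, hu, ← Polynomial.coeff_map]
    congr 1
    rw [taylor_apply, taylor_apply, Polynomial.map_comp, Polynomial.map_add, Polynomial.map_X,
      Polynomial.map_C]
    simp only [map_one]
  rw [h1]
  have h3 : Continuous fun A : Matrix (Fin m) (Fin m) k =>
      (fun ij : Fin m × Fin m => A ij.1 ij.2) := by
    apply continuous_pi
    intro ij
    exact continuous_id.matrix_elem ij.1 ij.2
  exact (MvPolynomial.continuous_eval u).comp h3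

end cont

/-- The multiplicity of the root `1` is at most `i` if the Taylor coefficient of order `i` is not
zero. -/
theorem ui_mult_le {k : Type} [Field k] {f : k[X]} (hf : f ≠ 0) {i : ℕ}
    (h : (taylor 1 f).coeff i ≠ 0) : f.rootMultiplicity 1 ≤ i := by
  by_contra hcon
  push Not at hcon
  apply h
  obtain ⟨g, hg⟩ := (Polynomial.le_rootMultiplicity_iff hf).mp (Nat.succ_le_of_lt hcon)
  have h2 : taylor 1 f = X ^ (i + 1) * taylor 1 g := by
    conv_lhs => rw [hg]
    rw [taylor_mul, taylor_pow, map_sub, taylor_X, taylor_C]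
    simp
  rw [h2, Polynomial.coeff_X_pow_mul', if_neg (by omega)]

/-- The Taylor coefficient of order the multiplicity of the root `1` is not zero. -/
theorem ui_mult_ne {k : Type} [Field k] {f : k[X]} (hf : f ≠ 0) :
    (taylor 1 f).coeff (f.rootMultiplicity 1) ≠ 0 := by
  obtain ⟨g, hg, hg1⟩ := Polynomial.exists_eq_pow_rootMultiplicity_mul_and_not_dvd f hf 1
  set i := f.rootMultiplicity 1 with hi
  have h2 : taylor 1 f = X ^ i * taylor 1 g := by
    conv_lhs => rw [hg]
    rw [taylor_mul, taylor_pow, map_sub, taylor_X, taylor_C]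
    simp
  rw [h2]
  have h3 : (X ^ i * taylor 1 g).coeff i = (taylor 1 g).coeff 0 := by
    have := Polynomial.coeff_X_pow_mul (taylor 1 g) i 0
    rwa [zero_add] at this
  rw [h3, taylor_coeff_zero]
  intro h4
  apply hg1
  exact Polynomial.dvd_iff_isRoot.mpr h4

/-- An element some power of which lies in `H`, without roots of unity other than `1` of this
exponent among the eigenvalues, acts trivially on the subquotients on which `H` acts trivially. -/
theorem ui_one {G k V : Type} [Group G] [Field k] [CharZero k] [IsAlgClosed k]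
    [AddCommGroup V] [Module k V] [FiniteDimensional k V] (π : Representation k G V)
    (H : Subgroup G) (g : G) {e : ℕ} (he : 0 < e) (hge : g ^ e ∈ H)
    (hn : ∀ x : k, x ^ e = 1 → (π g).charpoly.IsRoot x → x = 1) : g ∈ HT π H := by
  intro A B hAB hA hB hH x hx
  classical
  set f : Module.End k V := π g with hf
  set χ : k[X] := f.charpoly with hχ
  set D : k[X] := EuclideanDomain.gcd (X ^ e - 1) χ with hD
  have hXe : (X ^ e - 1 : k[X]) ≠ 0 := X_pow_sub_C_ne_zero he (1 : k)
  have hXn : (X - 1 : k[X]) ≠ 0 := X_sub_C_ne_zero (1 : k)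
  have hDe : D ∣ X ^ e - 1 := EuclideanDomain.gcd_dvd_left _ _
  have hDχ : D ∣ χ := EuclideanDomain.gcd_dvd_right _ _
  have hD0 : D ≠ 0 := ne_zero_of_dvd_ne_zero hXe hDe
  have hsep : (X ^ e - 1 : k[X]).Separable :=
    separable_X_pow_sub_C (1 : k) (by exact_mod_cast he.ne') one_ne_zero
  have hDsep : D.Separable := hsep.of_dvd hDe
  have hDn : D ∣ X - 1 := by
    refine (IsAlgClosed.splits D).dvd_of_roots_le_roots hD0 ?_
    rw [Multiset.le_iff_subset (nodup_roots hDsep)]
    intro z hz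
    rw [mem_roots hD0] at hz
    rw [mem_roots hXn]
    have h1 : (X ^ e - 1 : k[X]).IsRoot z := hz.dvd hDe
    have h2 : χ.IsRoot z := hz.dvd hDχ
    have h3 : z ^ e = 1 := by
      have : (X ^ e - 1 : k[X]).eval z = 0 := h1
      simpa [sub_eq_zero] using this
    have h4 : z = 1 := hn z h3 h2
    show (X - 1 : k[X]).eval z = 0
    simp [h4]
  obtain ⟨S, hS⟩ := hDn
  have hbez := EuclideanDomain.gcd_eq_gcd_ab (X ^ e - 1 : k[X]) χ
  rw [← hD] at hbez
  set a : k[X] := EuclideanDomain.gcdA (X ^ e - 1) χ with ha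
  set b : k[X] := EuclideanDomain.gcdB (X ^ e - 1) χ with hb
  have hkey : (X - 1 : k[X]) = (S * a) * (X ^ e - 1) + (S * b) * χ := by
    rw [hS, hbez]; ring
  have h1 := congrArg (aeval f) hkey
  rw [map_add, map_mul, map_mul (aeval f) (S * b) χ, hχ, LinearMap.aeval_self_charpoly,
    mul_zero, add_zero] at h1
  have h2 : (aeval f (X ^ e - 1 : k[X])) x = π (g ^ e) x - x := by
    rw [map_sub, map_pow, aeval_X, map_one, LinearMap.sub_apply, Module.End.one_apply, hf,
      ← map_pow]
  have h2' : (aeval f (X - 1 : k[X])) x = π g x - x := by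
    rw [map_sub, aeval_X, map_one, LinearMap.sub_apply, Module.End.one_apply, hf]
  have h3 := congrArg (fun F : Module.End k V => F x) h1
  simp only [Module.End.mul_apply] at h3
  rw [h2, h2'] at h3
  rw [h3]
  exact Pool.Agent.UB.c1_aeval_mem f A (hA g) _ _ (hH _ hge x hx)

/-- Roots of unity other than `1` that are roots of a polynomial in one embedding are so in any
other one. -/
theorem ui_transfer {E k₁ k₂ : Type} [Field E] [Field k₁] [Field k₂] [CharZero k₁]
    [IsAlgClosed k₁] (i₁ : E →+* k₁) (i₂ : E →+* k₂) (f : E[X]) {e : ℕ}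
    (he : 0 < e) (h : ∀ x : k₁, x ^ e = 1 → (f.map i₁).IsRoot x → x = 1) (x : k₂)
    (hx : x ^ e = 1) (hr : (f.map i₂).IsRoot x) : x = 1 := by
  by_contra hne
  let Q : E[X] := ∑ i ∈ Finset.range e, X ^ i
  have hQ : ∀ {k : Type} [Field k] (i : E →+* k), (Q.map i) * (X - 1) = X ^ e - 1 := by
    intro k _ i
    have h1 : Q.map i = ∑ i ∈ Finset.range e, (X : k[X]) ^ i := by
      simp [Q, Polynomial.map_sum]
    rw [h1, geom_sum_mul]
  have h1 : (Q.map i₂).IsRoot x := by
    have h2 : ((Q.map i₂) * (X - 1)).eval x = 0 := by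
      rw [hQ i₂]
      simp [hx]
    rw [eval_mul, mul_eq_zero] at h2
    rcases h2 with h2 | h2
    · exact h2
    · exfalso
      apply hne
      simpa [sub_eq_zero] using h2
  have h3 : ¬ IsCoprime f Q := by
    intro hcop
    have h4 : IsCoprime (f.map i₂) (Q.map i₂) := hcop.map (Polynomial.mapRingHom i₂)
    obtain ⟨a, b, hab⟩ := h4
    have h5 := congrArg (Polynomial.eval x) hab
    rw [eval_add, eval_mul, eval_mul, hr.eq_zero, h1.eq_zero, mul_zero, mul_zero, add_zero,
      eval_one] at h5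
    exact zero_ne_one h5
  have h4 : ¬ IsCoprime (f.map i₁) (Q.map i₁) := fun hc => h3 ((Polynomial.isCoprime_map i₁).mp hc)
  have hQ0 : Q.map i₁ ≠ 0 := by
    intro h0
    have h5 := hQ i₁
    rw [h0, zero_mul] at h5
    exact X_pow_sub_C_ne_zero he (1 : k₁) h5.symm
  -- a common root
  have h6 : ∃ y : k₁, (f.map i₁).IsRoot y ∧ (Q.map i₁).IsRoot y := by
    by_contra hno
    push Not at hno
    apply h4
    rw [Polynomial.isCoprime_iff_aeval_ne_zero_of_isAlgClosed k₁ k₁]
    intro a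
    rw [coe_aeval_eq_eval]
    by_cases ha : (f.map i₁).eval a = 0
    · exact Or.inr (hno a ha)
    · exact Or.inl ha
  obtain ⟨y, hy1, hy2⟩ := h6
  have hye : y ^ e = 1 := by
    have h7 : ((Q.map i₁) * (X - 1)).eval y = 0 := by
      rw [eval_mul, hy2.eq_zero, zero_mul]
    rw [hQ i₁] at h7
    simpa [sub_eq_zero] using h7
  have hy := h y hye hy1
  rw [hy] at hy2
  have h8 : (Q.map i₁).eval 1 = (e : k₁) := by
    simp [Q, Polynomial.map_sum, eval_finsetSum]
  rw [IsRoot.def, h8] at hy2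
  exact he.ne' (by exact_mod_cast hy2)

section

variable {K : Type} [Field K] [NumberField K] [Algebra K Qbar] {E : Type} [Field E] {p ℓ : ℕ}
  [Fact p.Prime] [Fact ℓ.Prime] {ip : E →+* ℂ_[p]} {il : E →+* PadicAlgCl ℓ} {d : ℕ}
  {R : (Qbar ≃ₐ[K] Qbar) →* Matrix (Fin d) (Fin d) ℂ_[p]} {V : Type} [AddCommGroup V]
  [Module (PadicAlgCl ℓ) V] [Module.Finite (PadicAlgCl ℓ) V]
  {π : Representation (PadicAlgCl ℓ) (Qbar ≃ₐ[K] Qbar) V}

/-- Density: near every element there is an element `t` at which the characteristic polynomials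
agree. -/
theorem ui_dense (hcomp : Compatible ip il R π) (g : Qbar ≃ₐ[K] Qbar) (U : Set (Qbar ≃ₐ[K] Qbar))
    (hU : U ∈ 𝓝 g) :
    ∃ t ∈ U, ∃ f : E[X], (R t).charpoly = f.map ip ∧ (π t).charpoly = f.map il := by
  obtain ⟨B, hB⟩ := hcomp
  have hU1 : (fun σ : Qbar ≃ₐ[K] Qbar => σ⁻¹) ⁻¹' U ∈ 𝓝 g⁻¹ := by
    apply (continuous_inv.continuousAt (x := g⁻¹)).preimage_mem_nhds
    rw [inv_inv]
    exact hU
  obtain ⟨q, hq, hqB, P, hP, hqP, σ, hσ1, hσ⟩ := fb_dense g⁻¹ _ hU1 B
  exact ⟨σ⁻¹, hσ1, hB q hq hqB P hP hqP σ hσ⟩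

/-- The generators of the unipotent group act trivially on the Tate classes. -/
theorem ui_gen (hR : Continuous R) (hcomp : Compatible ip il R π) (N : Subgroup (Qbar ≃ₐ[K] Qbar))
    [N.Normal] (hN : IsOpen (N : Set (Qbar ≃ₐ[K] Qbar))) (g : Qbar ≃ₐ[K] Qbar)
    (hg : ∀ (x : ℂ_[p]) (n : ℕ), 0 < n → x ^ n = 1 → (R g).charpoly.IsRoot x → x = 1) :
    g ∈ HT π N := by
  classical
  have hgal := Pool.Agent.TE.isGalois_Qbar (K := K)
  have hfi : N.FiniteIndex :=
    haveI := N.quotient_finite_of_isOpen hN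
    Subgroup.finiteIndex_of_finite_quotient
  set e := N.index with he
  have he0 : 0 < e := Nat.pos_of_ne_zero hfi.index_ne_zero
  -- a neighbourhood of `g`
  have hgN : IsOpen {y : Qbar ≃ₐ[K] Qbar | g⁻¹ * y ∈ N} := hN.preimage (continuous_const_mul g⁻¹)
  have hroots : IsOpen {y : Qbar ≃ₐ[K] Qbar | ∀ x ∈ (nthRootsFinset e (1 : ℂ_[p])).erase 1,
      (R y).charpoly.eval x ≠ 0} := by
    have h1 : {y : Qbar ≃ₐ[K] Qbar | ∀ x ∈ (nthRootsFinset e (1 : ℂ_[p])).erase 1,
        (R y).charpoly.eval x ≠ 0} = ⋂ x ∈ (nthRootsFinset e (1 : ℂ_[p])).erase 1,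
        {y : Qbar ≃ₐ[K] Qbar | (R y).charpoly.eval x ≠ 0} := by
      ext y
      simp
    rw [h1]
    apply isOpen_biInter_finset
    intro x _
    exact isOpen_ne.preimage ((ui_cont_eval x).comp hR)
  have hmem : ∀ x, x ∈ (nthRootsFinset e (1 : ℂ_[p])).erase 1 ↔ x ≠ 1 ∧ x ^ e = 1 := by
    intro x
    rw [Finset.mem_erase, mem_nthRootsFinset he0]
  have hU := (hgN.inter hroots).mem_nhds (x := g) ⟨by
    show g⁻¹ * g ∈ N
    rw [inv_mul_cancel]
    exact N.one_mem, by
    intro x hx h0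
    rw [hmem] at hx
    exact hx.1 (hg x e he0 hx.2 h0)⟩
  obtain ⟨t, ⟨htN, htr⟩, f, hf1, hf2⟩ := ui_dense hcomp g _ hU
  have ht : t ∈ HT π N := by
    refine ui_one π N t he0 (N.pow_index_mem t) ?_
    rw [hf2]
    refine ui_transfer ip il f he0 ?_
    intro x hx hroot
    by_contra hne
    refine htr x ((hmem x).mpr ⟨hne, hx⟩) ?_
    rw [hf1]
    exact hroot
  obtain ⟨M, -, hNM, hM⟩ := ht_group π N
  rw [← hM] at ht ⊢
  have h1 : g = t * (g⁻¹ * t)⁻¹ := by group
  rw [h1]
  exact M.mul_mem ht (M.inv_mem (hNM htN))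

/-- The dimension of a subquotient on which `H ⊇ N` acts trivially is at most the multiplicity of the
eigenvalue `1` of every element that acts trivially on all stable subquotients on which `N` acts
trivially. -/
theorem ui_bound (hR : Continuous R) (hcomp : Compatible ip il R π)
    (N : Subgroup (Qbar ≃ₐ[K] Qbar)) [N.Normal] (hNo : IsOpen (N : Set (Qbar ≃ₐ[K] Qbar)))
    {u : Qbar ≃ₐ[K] Qbar} (hu : u ∈ HT π N) (W₁ W₂ : Submodule (PadicAlgCl ℓ) V) (hW : W₁ ≤ W₂)
    (hT : ∀ σ ∈ N, ∀ x ∈ W₂, π σ x - x ∈ W₁) :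
    Module.finrank (PadicAlgCl ℓ) W₂ ≤ Module.finrank (PadicAlgCl ℓ) W₁ +
      (R u).charpoly.rootMultiplicity 1 := by
  obtain ⟨M, -, hNM, hM⟩ := ht_group π N
  have huM : u ∈ M := by
    rw [← hM] at hu
    exact hu
  set i := (R u).charpoly.rootMultiplicity 1 with hi
  have h1 : (taylor 1 (R u).charpoly).coeff i ≠ 0 := ui_mult_ne (R u).charpoly_monic.ne_zero
  have hgN : IsOpen {y : Qbar ≃ₐ[K] Qbar | u⁻¹ * y ∈ N} :=
    hNo.preimage (continuous_const_mul u⁻¹)
  have hUo : IsOpen {y : Qbar ≃ₐ[K] Qbar | (taylor 1 (R y).charpoly).coeff i ≠ 0} :=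
    isOpen_ne.preimage ((ui_cont_taylor i).comp hR)
  have hU := (hgN.inter hUo).mem_nhds (x := u) ⟨by
    show u⁻¹ * u ∈ N
    rw [inv_mul_cancel]
    exact N.one_mem, h1⟩
  obtain ⟨t, ⟨htN, htr⟩, f, hf1, hf2⟩ := ui_dense hcomp u _ hU
  have htM : t ∈ HT π N := by
    rw [← hM]
    have h2 : t = u * (u⁻¹ * t) := by group
    rw [h2]
    exact M.mul_mem huM (hNM htN)
  have h3 := ht_mult π N W₁ W₂ hW hT t htM
  refine h3.trans (Nat.add_le_add_left ?_ _)
  have h4 : (π t).charpoly.rootMultiplicity 1 = (R t).charpoly.rootMultiplicity 1 := by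
    rw [hf1, hf2, ← map_one il, ← Polynomial.eq_rootMultiplicity_map il.injective, ← map_one ip,
      ← Polynomial.eq_rootMultiplicity_map ip.injective]
  rw [h4]
  exact ui_mult_le (R t).charpoly_monic.ne_zero htr

end

end Pool.Agent.UI
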