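import Pool.Agent.Lib_helper46.UI.DefsN
import Pool.Agent.Lib_helper46.UI.Main
import Pool.Agent.Lib_helper46.UI.MS
import Pool.Agent.Lib_helper46.UI.CL
import Pool.Agent.Lib_helper61.TU.Main
import Pool.Agent.Lib_helper46.OS.NW
import Pool.Agent.Lib_helper87.UB.Main
import Pool.Agent.Lib_helper7.TB.Main

/-!
# Unipotent elements and Tate classes on cyclic covers: the proof
-/

set_option autoImplicit false

namespace Pool.Agent.UI

open NumberField Topology Polynomial Filter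
open Pool.Agent.TT Pool.Agent.TB Pool.Agent.TF Pool.Agent.RF Pool.Agent.TU

section cong

variable {K : Type} [Field K] [NumberField K] [Algebra K Qbar] {p a : ℕ} [hp : Fact p.Prime]
  {ζ : 𝓞 K} {s : ℕ} {S : Fin s → Stratum K} {ip : K →+* ℂ_[p]} {d d₁ d₂ : ℕ}
  {R : (Qbar ≃ₐ[K] Qbar) →* Matrix (Fin d) (Fin d) ℂ_[p]}
  {R₁ : (Qbar ≃ₐ[K] Qbar) →* Matrix (Fin d₁) (Fin d₁) ℂ_[p]}
  {R₂ : (Qbar ≃ₐ[K] Qbar) →* Matrix (Fin d₂) (Fin d₂) ℂ_[p]}

/-- The traces of the powers of every element are congruent. -/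
theorem fn_cong (hζ : IsPrimitiveRoot ζ (p ^ a)) (ha : 0 < a) (hR : Continuous R)
    (hRT : SumTraces (fun σ => (R σ).trace) ip (p ^ a) ζ S)
    (hN : CardRealization R₁ R₂ S)
    (g : Qbar ≃ₐ[K] Qbar) {k r : ℕ} (hr : 0 < r) (hk : p ^ k ∣ r) :
    ‖(R (g ^ r)).trace - ((R₁ (g ^ r)).trace - (R₂ (g ^ r)).trace)‖ ≤
      ‖(p : ℂ_[p])‖ ^ (k + 1 - a) := by
  classical
  by_contra hcon
  push Not at hcon
  obtain ⟨B, hB⟩ := hRT
  obtain ⟨hR₁, hR₂, B', hB'⟩ := hN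
  have hcont : Continuous fun y : Qbar ≃ₐ[K] Qbar =>
      ‖(R (y ^ r)).trace - ((R₁ (y ^ r)).trace - (R₂ (y ^ r)).trace)‖ := by
    have h0 : Continuous fun y : Qbar ≃ₐ[K] Qbar => y ^ r := continuous_pow r
    exact ((hR.comp h0).matrix_trace.sub
      ((hR₁.comp h0).matrix_trace.sub (hR₂.comp h0).matrix_trace)).norm
  have hU : {y : Qbar ≃ₐ[K] Qbar | ‖(p : ℂ_[p])‖ ^ (k + 1 - a) <
      ‖(R (y ^ r)).trace - ((R₁ (y ^ r)).trace - (R₂ (y ^ r)).trace)‖} ∈ 𝓝 g :=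
    (isOpen_lt continuous_const hcont).mem_nhds hcon
  have hU1 : (fun σ : Qbar ≃ₐ[K] Qbar => σ⁻¹) ⁻¹' {y : Qbar ≃ₐ[K] Qbar |
      ‖(p : ℂ_[p])‖ ^ (k + 1 - a) <
      ‖(R (y ^ r)).trace - ((R₁ (y ^ r)).trace - (R₂ (y ^ r)).trace)‖} ∈ 𝓝 g⁻¹ := by
    apply (continuous_inv.continuousAt (x := g⁻¹)).preimage_mem_nhds
    rw [inv_inv]
    exact hU
  obtain ⟨q, hq, hqB, P, hP, hqP, σ, hσ1, hσ⟩ :=
    fb_dense g⁻¹ _ hU1 (B ∪ (B' ∪ (Finset.range (p ^ a + 1))))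
  rw [Finset.mem_union, Finset.mem_union, Finset.mem_range, not_or, not_or] at hqB
  obtain ⟨hqB1, hqB2, hqB3⟩ := hqB
  rw [Set.mem_preimage, Set.mem_ofPred_eq] at hσ1
  have hqF : Fact q.Prime := ⟨hq⟩
  obtain ⟨φp, hφp, _⟩ := ft_phi hq hP hqP hσ
  have hm0 : 0 < p ^ a := pow_pos hp.out.pos a
  obtain ⟨hζ', hmq⟩ := rs_reduce hq hm0 (by omega) hζ hP hqP φp hφp
  let _ : Fintype (GaloisField q r) := Fintype.ofFinite _
  have hcardF : Fintype.card (GaloisField q r) = q ^ r := by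
    rw [← Nat.card_eq_fintype_card]
    exact GaloisField.card q r (by omega)
  let φ : 𝓞 K →+* GaloisField q r := (algebraMap (ZMod q) (GaloisField q r)).comp φp
  have hφ0 : ∀ x : 𝓞 K, φ x = 0 ↔ algebraMap (𝓞 K) (𝓞 Qbar) x ∈ P := by
    intro x
    rw [← hφp]
    exact map_eq_zero_iff _ (algebraMap (ZMod q) (GaloisField q r)).injective
  have hfr : ∀ x y : 𝓞 Qbar, (y : Qbar) = (σ ^ r) x →
      y - x ^ Fintype.card (GaloisField q r) ∈ P := by
    rw [hcardF]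
    exact pl_frob_pow hσ r
  have h1 := hB q hq hqB1 P hP hqP (GaloisField q r) φ hφ0 (σ ^ r) hfr
  have h2 := hB' q hq hqB2 P hP hqP (GaloisField q r) φ hφ0 (σ ^ r) hfr
  have h3 := cl_strata hp.out (norm_p_lt p) ip (rs_ring ip) S (F := GaloisField q r) φp hζ' hmq
    hcardF hr hk
  simp only at h1 h2
  rw [← inv_pow] at h1 h2
  have hp1 : ‖(p : ℂ_[p])‖ ≤ 1 := (norm_p_lt p).le
  have h4 : ‖(Fintype.card (GaloisField q r) : ℂ_[p]) - 1‖ ≤ ‖(p : ℂ_[p])‖ ^ (k + 1 - a) := by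
    obtain ⟨r₀, hr₀⟩ := hk
    have h5 : ((p : ℤ)) ∣ (q : ℤ) ^ r₀ - 1 := by
      have h6 : (p : ℤ) ∣ (q : ℤ) - 1 := by
        have h7 : p ∣ q - 1 := (dvd_pow_self p ha.ne').trans hmq
        have h8 : ((q - 1 : ℕ) : ℤ) = (q : ℤ) - 1 := by
          rw [Nat.cast_sub hq.one_le, Nat.cast_one]
        rw [← h8]
        exact_mod_cast h7
      have h7 := sub_dvd_pow_sub_pow (q : ℤ) 1 r₀
      rw [one_pow] at h7
      exact h6.trans h7
    have h6 := dvd_sub_pow_of_dvd_sub (R := ℤ) (p := p) (a := (q : ℤ) ^ r₀) (b := 1) h5 k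
    rw [one_pow, ← pow_mul, mul_comm r₀, ← hr₀] at h6
    obtain ⟨c, hc⟩ := h6
    have h7 : (Fintype.card (GaloisField q r) : ℂ_[p]) - 1 = (p : ℂ_[p]) ^ (k + 1) * (c : ℂ_[p]) := by
      have h8 := congrArg (Int.cast : ℤ → ℂ_[p]) hc
      push_cast at h8
      rw [hcardF]
      push_cast
      exact h8
    rw [h7, norm_mul, norm_pow]
    calc ‖(p : ℂ_[p])‖ ^ (k + 1) * ‖(c : ℂ_[p])‖ ≤ ‖(p : ℂ_[p])‖ ^ (k + 1 - a) * 1 :=
          mul_le_mul (pow_le_pow_of_le_one (norm_nonneg _) hp1 (by omega))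
            (IsUltrametricDist.norm_intCast_le_one ℂ_[p] c) (norm_nonneg _)
            (pow_nonneg (norm_nonneg _) _)
      _ = _ := mul_one _
  have h5 : (R (σ⁻¹ ^ r)).trace - ((R₁ (σ⁻¹ ^ r)).trace - (R₂ (σ⁻¹ ^ r)).trace) =
      ((ip (strataSum (p ^ a) ζ φ S : 𝓞 K)) - ((strataCard φ S : ℤ) : ℂ_[p])) +
      -(((R₁ (σ⁻¹ ^ r)).trace - (R₂ (σ⁻¹ ^ r)).trace) - ((strataCard φ S : ℤ) : ℂ_[p])) := by
    rw [h1]
    ring
  rw [h5] at hσ1
  refine absurd hσ1 (not_lt.mpr ?_)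
  refine (IsUltrametricDist.norm_add_le_max _ _).trans (max_le h3 ?_)
  rw [norm_neg]
  exact h2.trans h4

end cong

/-- The eigenvalues of a continuous representation have powers that are congruent to `1`. -/
theorem fn_eig {K : Type} [Field K] [NumberField K] [Algebra K Qbar] {p : ℕ} [hp : Fact p.Prime]
    {d : ℕ} {R : (Qbar ≃ₐ[K] Qbar) →* Matrix (Fin d) (Fin d) ℂ_[p]} (hR : Continuous R)
    (g : Qbar ≃ₐ[K] Qbar) (x : ℂ_[p]) (hx : x ∈ (R g).charpoly.roots) :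
    ∃ e : ℕ, 0 < e ∧ ‖x ^ e - 1‖ < 1 := by
  classical
  have hgal := Pool.Agent.TE.isGalois_Qbar (K := K)
  have hopen : IsOpen {h : Qbar ≃ₐ[K] Qbar | ∀ i j, ‖R h i j - (1 : Matrix (Fin d) (Fin d) ℂ_[p]) i j‖ < 1} := by
    have h1 : {h : Qbar ≃ₐ[K] Qbar | ∀ i j,
        ‖R h i j - (1 : Matrix (Fin d) (Fin d) ℂ_[p]) i j‖ < 1} =
        ⋂ i, ⋂ j, {h : Qbar ≃ₐ[K] Qbar | ‖R h i j - (1 : Matrix (Fin d) (Fin d) ℂ_[p]) i j‖ < 1} := by
      ext h
      simp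
    rw [h1]
    refine isOpen_iInter_of_finite fun i => isOpen_iInter_of_finite fun j => ?_
    refine isOpen_lt (((hR.matrix_elem i j).sub continuous_const).norm) continuous_const
  obtain ⟨N', hN'⟩ := ProfiniteGrp.exist_openNormalSubgroup_sub_open_nhds_of_one hopen (by
    intro i j
    rw [map_one, sub_self, norm_zero]
    exact zero_lt_one)
  let N : Subgroup (Qbar ≃ₐ[K] Qbar) := N'.toSubgroup
  have hNn : N.Normal := N'.isNormal'
  have hNo : IsOpen (N : Set (Qbar ≃ₐ[K] Qbar)) := N'.isOpen'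
  have hfi : N.FiniteIndex :=
    haveI := N.quotient_finite_of_isOpen hNo
    Subgroup.finiteIndex_of_finite_quotient
  refine ⟨N.index, Nat.pos_of_ne_zero hfi.index_ne_zero, ?_⟩
  set e := N.index with he
  have h1 : g ^ e ∈ N := N.pow_index_mem g
  have h2 : ∀ i j, ‖R (g ^ e) i j - (1 : Matrix (Fin d) (Fin d) ℂ_[p]) i j‖ < 1 := hN' h1
  have h3 : x ^ e ∈ (R (g ^ e)).charpoly.roots := by
    rw [map_pow, Pool.Agent.OS.nw_pow, Multiset.mem_map]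
    exact ⟨x, hx, rfl⟩
  rw [Polynomial.mem_roots (Matrix.charpoly_monic _).ne_zero,
    ← Matrix.charpoly_toLin', ← Module.End.hasEigenvalue_iff_isRoot_charpoly] at h3
  obtain ⟨v, hv⟩ := h3.exists_hasEigenvector
  have hv1 : (R (g ^ e)).mulVec v = (x ^ e) • v := by
    have := hv.apply_eq_smul
    rwa [Matrix.toLin'_apply] at this
  have hv0 : v ≠ 0 := hv.2
  -- the largest coordinate
  have hne : Nonempty (Fin d) := by
    by_contra hempty
    rw [not_nonempty_iff] at hempty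
    exact hv0 (Subsingleton.elim _ _)
  obtain ⟨i, hi⟩ := Finite.exists_max fun i => ‖v i‖
  have hvi : 0 < ‖v i‖ := by
    rw [norm_pos_iff]
    intro h0
    apply hv0
    funext j
    have := hi j
    rw [h0, norm_zero] at this
    exact norm_le_zero_iff.mp this
  have h4 : (x ^ e - 1) * v i = ∑ j, (R (g ^ e) i j - (1 : Matrix (Fin d) (Fin d) ℂ_[p]) i j) * v j := by
    have h5 := congrFun hv1 i
    have h6 : ((R (g ^ e)).mulVec v - (1 : Matrix (Fin d) (Fin d) ℂ_[p]).mulVec v) i =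
        (x ^ e - 1) * v i := by
      rw [Pi.sub_apply, h5, Matrix.one_mulVec, Pi.smul_apply, smul_eq_mul]
      ring
    rw [← h6, ← Matrix.sub_mulVec]
    rfl
  have h5 : ‖(x ^ e - 1) * v i‖ < ‖v i‖ := by
    rw [h4]
    apply Pool.Agent.TT.gn_sum_lt _ _ hvi
    intro j _
    rw [norm_mul]
    calc ‖R (g ^ e) i j - (1 : Matrix (Fin d) (Fin d) ℂ_[p]) i j‖ * ‖v j‖ ≤
        ‖R (g ^ e) i j - (1 : Matrix (Fin d) (Fin d) ℂ_[p]) i j‖ * ‖v i‖ := by
          gcongr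
          exact hi j
      _ < 1 * ‖v i‖ := by
          gcongr
          exact h2 i j
      _ = _ := one_mul _
  rw [norm_mul] at h5
  by_contra hcon
  push Not at hcon
  have h6 : 1 * ‖v i‖ ≤ ‖x ^ e - 1‖ * ‖v i‖ := by gcongr
  rw [one_mul] at h6
  exact absurd h5 (not_lt.mpr h6)

theorem fn_near {p : ℕ} [Fact p.Prime] {d : ℕ} (A : Matrix (Fin d) (Fin d) ℂ_[p]) :
    residuallyOne A = nearOne A.charpoly.roots := rfl

/-- **The relation between the numbers of eigenvalues that are congruent to `1`.** -/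
theorem fn_rel {K : Type} [Field K] [NumberField K] [Algebra K Qbar] {p a : ℕ} [hp : Fact p.Prime]
    {ζ : 𝓞 K} {s : ℕ} {S : Fin s → Stratum K} {ip : K →+* ℂ_[p]} {d d₁ d₂ : ℕ}
    {R : (Qbar ≃ₐ[K] Qbar) →* Matrix (Fin d) (Fin d) ℂ_[p]}
    {R₁ : (Qbar ≃ₐ[K] Qbar) →* Matrix (Fin d₁) (Fin d₁) ℂ_[p]}
    {R₂ : (Qbar ≃ₐ[K] Qbar) →* Matrix (Fin d₂) (Fin d₂) ℂ_[p]}
    (hζ : IsPrimitiveRoot ζ (p ^ a)) (ha : 0 < a) (hR : Continuous R)
    (hRT : SumTraces (fun σ => (R σ).trace) ip (p ^ a) ζ S)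
    (hN : CardRealization R₁ R₂ S) (g : Qbar ≃ₐ[K] Qbar) :
    residuallyOne (R g) + residuallyOne (R₂ g) = residuallyOne (R₁ g) := by
  classical
  have h0 : residuallyOne (R g) + residuallyOne (R₂ g) =
      nearOne ((R g).charpoly.roots + (R₂ g).charpoly.roots) := by
    rw [fn_near, fn_near]
    unfold nearOne
    rw [Multiset.filter_add, Multiset.card_add]
  rw [h0, fn_near]
  apply ms_main hp.out (norm_p_lt p) _ _ _ _ (fun k => ‖(p : ℂ_[p])‖ ^ (k + 1 - a))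
  · have h1 := tendsto_pow_atTop_nhds_zero_of_lt_one (norm_nonneg (p : ℂ_[p])) (norm_p_lt p)
    refine h1.comp ?_
    apply tendsto_atTop_mono (fun k => ?_) (tendsto_sub_atTop_nat a)
    omega
  · intro k r hr hk
    have h1 := fn_cong hζ ha hR hRT hN g hr hk
    rw [Multiset.map_add, Multiset.sum_add, ← tu_mtrace, ← tu_mtrace, ← tu_mtrace, ← map_pow,
      ← map_pow, ← map_pow]
    have h2 : (R (g ^ r)).trace + (R₂ (g ^ r)).trace - (R₁ (g ^ r)).trace =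
        (R (g ^ r)).trace - ((R₁ (g ^ r)).trace - (R₂ (g ^ r)).trace) := by ring
    rw [h2]
    exact h1
  · intro x hx
    rcases Multiset.mem_add.mp hx with hx | hx
    · exact fn_eig hR g x hx
    · exact fn_eig hN.continuous₂ g x hx
  · exact fun x hx => fn_eig hN.continuous₁ g x hx

/-- The cyclotomic character is congruent to `1`. -/
theorem fn_cyc {K : Type} [Field K] [NumberField K] [Algebra K Qbar] {p a : ℕ} [hp : Fact p.Prime]
    {ζ : 𝓞 K} (hζ : IsPrimitiveRoot ζ (p ^ a)) (ha : 0 < a) (g : Qbar ≃ₐ[K] Qbar) :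
    ‖cycC p g - 1‖ < 1 := by
  refine lt_of_le_of_lt ?_ (norm_p_lt p)
  by_contra hcon
  push Not at hcon
  have hcont : Continuous fun y : Qbar ≃ₐ[K] Qbar => ‖cycC p y - 1‖ :=
    (cycC_continuous.sub continuous_const).norm
  have hU : {y : Qbar ≃ₐ[K] Qbar | ‖(p : ℂ_[p])‖ < ‖cycC p y - 1‖} ∈ 𝓝 g :=
    (isOpen_lt continuous_const hcont).mem_nhds hcon
  obtain ⟨q, hq, hqB, P, hP, hqP, σ, hσ1, hσ⟩ :=
    fb_dense g _ hU (Finset.range (p ^ a + 1) ∪ {p})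
  rw [Finset.mem_union, Finset.mem_range, Finset.mem_singleton, not_or] at hqB
  obtain ⟨hqB3, hqp⟩ := hqB
  have hqF : Fact q.Prime := ⟨hq⟩
  obtain ⟨φp, hφp, _⟩ := ft_phi hq hP hqP hσ
  have hm0 : 0 < p ^ a := pow_pos hp.out.pos a
  obtain ⟨-, hmq⟩ := rs_reduce hq hm0 (by omega) hζ hP hqP φp hφp
  have hdvd : p ∣ q - 1 := (dvd_pow_self p ha.ne').trans hmq
  rw [Set.mem_ofPred_eq, cycC_frob hq (Ne.symm hqp) hP hqP hσ] at hσ1
  obtain ⟨c, hc⟩ := hdvd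
  have h1 : (q : ℂ_[p]) - 1 = (p : ℂ_[p]) * (c : ℂ_[p]) := by
    have h2 : ((q - 1 : ℕ) : ℂ_[p]) = ((p * c : ℕ) : ℂ_[p]) := by rw [hc]
    rw [Nat.cast_sub hq.one_le, Nat.cast_one, Nat.cast_mul] at h2
    exact h2
  rw [h1, norm_mul] at hσ1
  refine absurd hσ1 (not_lt.mpr ?_)
  apply mul_le_of_le_one_right (norm_nonneg _)
  exact IsUltrametricDist.norm_natCast_le_one _ c

/-- The multiplicity of the eigenvalue `1` of the twist. -/
theorem fn_mult {K : Type} [Field K] [NumberField K] [Algebra K Qbar] {p a : ℕ} [hp : Fact p.Prime]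
    {ζ : 𝓞 K} (hζ : IsPrimitiveRoot ζ (p ^ a)) (ha : 0 < a) {d : ℕ}
    (R : (Qbar ≃ₐ[K] Qbar) →* Matrix (Fin d) (Fin d) ℂ_[p]) (j : ℕ) (g : Qbar ≃ₐ[K] Qbar) :
    (Pool.Agent.TBL.twist R j g).charpoly.rootMultiplicity 1 ≤ residuallyOne (R g) := by
  classical
  have hc0 : cycC p g ^ j ≠ 0 := pow_ne_zero _ (cycC_ne_zero g)
  have h1 : (Pool.Agent.TBL.twist R j g).charpoly.rootMultiplicity 1 =
      (R g).charpoly.rootMultiplicity (cycC p g ^ j)⁻¹ :=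
    Pool.Agent.UB.um_smul (R g) (cycC p g ^ j) hc0
  rw [h1, ← Polynomial.count_roots]
  have h2 : ‖(cycC p g ^ j)⁻¹ - 1‖ < 1 := by
    have h3 := fn_cyc hζ ha g
    have h4 : ‖cycC p g ^ j - 1‖ < 1 :=
      lt_of_le_of_lt (ms_pow_near (ms_norm_of_near h3).le le_rfl j) h3
    have h5 : (cycC p g ^ j)⁻¹ - 1 = -((cycC p g ^ j)⁻¹ * (cycC p g ^ j - 1)) := by
      rw [mul_sub, inv_mul_cancel₀ hc0]
      ring
    rw [h5, norm_neg, norm_mul, norm_inv, ms_norm_of_near h4, inv_one, one_mul]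
    exact h4
  unfold residuallyOne
  rw [← Multiset.countP_eq_card_filter, Multiset.count]
  rw [Multiset.countP_eq_card_filter, Multiset.countP_eq_card_filter]
  apply Multiset.card_le_card
  apply Multiset.monotone_filter_right
  intro x hx
  rw [← hx]
  exact h2

/-- The twisted representations are compatible. -/
theorem fn_comp {K : Type} [Field K] [NumberField K] [Algebra K Qbar] {p m : ℕ} [hp : Fact p.Prime]
    {ζ : 𝓞 K} {s : ℕ} (S : Fin s → Stratum K) (ip : K →+* ℂ_[p]) {d : ℕ}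
    (R : (Qbar ≃ₐ[K] Qbar) →* Matrix (Fin d) (Fin d) ℂ_[p])
    (hRT : SumTraces (fun σ => (R σ).trace) ip m ζ S)
    {ℓ : ℕ} [Fact ℓ.Prime] (il : K →+* PadicAlgCl ℓ)
    {V : Type} [AddCommGroup V] [Module (PadicAlgCl ℓ) V] [Module.Finite (PadicAlgCl ℓ) V]
    (π : Representation (PadicAlgCl ℓ) (Qbar ≃ₐ[K] Qbar) V)
    (hπ : SumTraces (fun σ => LinearMap.trace (PadicAlgCl ℓ) V (π σ)) il m ζ S) (j : ℕ) :
    Compatible ip il (Pool.Agent.TBL.twist R j)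
      (Pool.Agent.UB.twist π j tv_cyc_mul tv_cyc_one) := by
  classical
  obtain ⟨B, hB⟩ := hRT
  obtain ⟨B', hB'⟩ := hπ
  refine ⟨B ∪ (B' ∪ {ℓ, p}), ?_⟩
  intro q hq hqB P hP hqP σ hσ
  rw [Finset.mem_union, Finset.mem_union, Finset.mem_insert, Finset.mem_singleton, not_or, not_or,
    not_or] at hqB
  obtain ⟨hqB1, hqB2, hql, hqp⟩ := hqB
  have hq0 : (q : PadicAlgCl ℓ) ≠ 0 := by
    have := hq.ne_zero
    exact_mod_cast this
  have hq0' : (q : ℂ_[p]) ≠ 0 := by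
    have := hq.ne_zero
    exact_mod_cast this
  obtain ⟨t, ht⟩ := fa_pow (K := K) 0 1 (fun F _ _ φ => strataSum m ζ φ S) hq hP hqP hσ
  have h1 : ∀ r : ℕ, 1 ≤ r → (R (σ⁻¹ ^ r)).trace = ip (t r) := by
    apply ht ℂ_[p] (fun σ => (R σ).trace) ip
    intro F _ _ φ hφ τ hτ
    rw [pow_zero, one_mul, map_one, one_mul]
    exact hB q hq hqB1 P hP hqP F φ hφ τ hτ
  have h2 : ∀ r : ℕ, 1 ≤ r → LinearMap.trace (PadicAlgCl ℓ) V (π (σ⁻¹ ^ r)) = il (t r) := by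
    apply ht (PadicAlgCl ℓ) (fun σ => LinearMap.trace (PadicAlgCl ℓ) V (π σ)) il
    intro F _ _ φ hφ τ hτ
    rw [pow_zero, one_mul, map_one, one_mul]
    exact hB' q hq hqB2 P hP hqP F φ hφ τ hτ
  have hc1 : cycC p σ⁻¹ = (q : ℂ_[p])⁻¹ := by
    apply eq_inv_of_mul_eq_one_left
    rw [← cycC_frob hq (Ne.symm hqp) hP hqP hσ, ← cycC_mul, inv_mul_cancel, cycC_one]
  have hc2 : cyc ℓ σ⁻¹ = (q : PadicAlgCl ℓ)⁻¹ := by
    apply eq_inv_of_mul_eq_one_left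
    rw [← cyc_frob hq (Ne.symm hql) hP hqP hσ, ← tv_cyc_mul, inv_mul_cancel, tv_cyc_one]
  set π' := Pool.Agent.UB.twist π j tv_cyc_mul tv_cyc_one with hπ'
  set R' := Pool.Agent.TBL.twist R j with hR'
  have hinj1 : Function.Injective (π' σ⁻¹) := by
    intro x y hxy
    have h3 : π' σ (π' σ⁻¹ x) = π' σ (π' σ⁻¹ y) := by rw [hxy]
    rw [← Module.End.mul_apply, ← Module.End.mul_apply, ← map_mul, mul_inv_cancel, map_one,
      Module.End.one_apply, Module.End.one_apply] at h3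
    exact h3
  have hinj2 : Function.Injective (Matrix.toLin' (R' σ⁻¹)) := by
    intro x y hxy
    have h3 : Matrix.toLin' (R' σ) (Matrix.toLin' (R' σ⁻¹) x) =
        Matrix.toLin' (R' σ) (Matrix.toLin' (R' σ⁻¹) y) := by rw [hxy]
    rw [← Matrix.toLin'_mul_apply, ← Matrix.toLin'_mul_apply, ← map_mul,
      mul_inv_cancel, map_one, Matrix.toLin'_one, LinearMap.id_apply, LinearMap.id_apply] at h3
    exact h3
  obtain ⟨f, hf, hf'⟩ := np_charpoly ip il (Matrix.toLin' (R' σ⁻¹)) (π' σ⁻¹) hinj2 hinj1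
    (fun r => ((q : K)⁻¹ ^ j) ^ r * t r)
    (by
      intro r hr
      have h3 : R (σ⁻¹ ^ r) = R σ⁻¹ ^ r := map_pow R _ _
      have h4 := h1 r hr
      rw [h3] at h4
      have h5 : R' σ⁻¹ = (q : ℂ_[p])⁻¹ ^ j • R σ⁻¹ := by
        rw [← hc1]
        rfl
      rw [← Matrix.toLin'_pow, Matrix.trace_toLin'_eq, h5, _root_.smul_pow, Matrix.trace_smul, h4,
        smul_eq_mul, map_mul, map_pow, map_pow, map_inv₀, map_natCast])
    (by
      intro r hr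
      have h3 : π (σ⁻¹ ^ r) = π σ⁻¹ ^ r := map_pow π _ _
      have h4 := h2 r hr
      rw [h3] at h4
      have h5 : π' σ⁻¹ = (q : PadicAlgCl ℓ)⁻¹ ^ j • π σ⁻¹ := by
        rw [← hc2]
        rfl
      rw [h5, _root_.smul_pow, map_smul, h4, smul_eq_mul, map_mul, map_pow, map_pow, map_inv₀,
        map_natCast])
  rw [Matrix.charpoly_toLin'] at hf
  exact ⟨f, hf, hf'⟩

/-- **The main theorem.** -/
theorem fn_main {K : Type} [Field K] [NumberField K] [Algebra K Qbar] {p a : ℕ}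
    [hp : Fact p.Prime] {ζ : 𝓞 K} (hζ : IsPrimitiveRoot ζ (p ^ a)) (ha : 0 < a) {s : ℕ}
    (S : Fin s → Stratum K) (ip : K →+* ℂ_[p]) {d d₁ d₂ : ℕ} (R : Rep K p d)
    (hR : SumRealization R ip (p ^ a) ζ S) (R₁ : Rep K p d₁) (R₂ : Rep K p d₂)
    (hN : CardRealization R₁ R₂ S) (j : ℕ) (u : Qbar ≃ₐ[K] Qbar)
    (hu : u ∈ rootFreeGroup (p ^ a) ζ S j) {ℓ : ℕ} [Fact ℓ.Prime] (il : K →+* PadicAlgCl ℓ)
    {V : Type} [AddCommGroup V] [Module (PadicAlgCl ℓ) V] [Module.Finite (PadicAlgCl ℓ) V]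
    (π : Representation (PadicAlgCl ℓ) (Qbar ≃ₐ[K] Qbar) V)
    (hπ : SumTraces (fun σ => LinearMap.trace (PadicAlgCl ℓ) V (π σ)) il (p ^ a) ζ S) :
    TateClassesLE π j (residuallyOne (R₁ u)) (residuallyOne (R₂ u)) := by
  intro H hH W₁ W₂ hW hTate
  have hgal := Pool.Agent.TE.isGalois_Qbar (K := K)
  obtain ⟨N', hN'⟩ := ProfiniteGrp.exist_openNormalSubgroup_sub_open_nhds_of_one hH H.one_mem
  let N : Subgroup (Qbar ≃ₐ[K] Qbar) := N'.toSubgroup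
  have hNn : N.Normal := N'.isNormal'
  have hNo : IsOpen (N : Set (Qbar ≃ₐ[K] Qbar)) := N'.isOpen'
  have hcont : ∀ {q : ℕ} [Fact q.Prime] {n : ℕ}
      (X : (Qbar ≃ₐ[K] Qbar) →* Matrix (Fin n) (Fin n) ℂ_[q]), Continuous X →
        Continuous (Pool.Agent.TBL.twist X j) := by
    intro q _ n X hX
    change Continuous (fun g => cycC q g ^ j • X g)
    exact ((cycC_continuous (p := q) (K := K)).pow j).smul hX
  have huN : u ∈ Pool.Agent.UB.HT (Pool.Agent.UB.twist π j tv_cyc_mul tv_cyc_one) N := by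
    obtain ⟨M, -, -, hM⟩ :=
      Pool.Agent.UB.ht_group (Pool.Agent.UB.twist π j tv_cyc_mul tv_cyc_one) N
    rw [← hM]
    refine (Subgroup.closure_le M).mpr ?_ hu
    rintro g ⟨q, hq, ι, n, X, ⟨hX, hXT⟩, hg⟩
    rw [hM]
    exact ui_gen (hcont X hX) (fn_comp S ι X hXT il π hπ j) N hNo g hg
  have h1 := ui_bound (hcont R hR.continuous) (fn_comp S ip R hR.traces il π hπ j) N hNo huN W₁ W₂
    hW (fun h hh => hTate h (hN' hh))
  have h2 := fn_mult hζ ha R j u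
  have h3 := fn_rel hζ ha hR.continuous hR.traces hN u
  omega

end Pool.Agent.UI
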