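import Pool.Agent.Lib_helper61.TT.Defs

/-!
# Unipotent elements and Tate classes: definitions
-/

set_option autoImplicit false

namespace Pool.Agent.UI

open NumberField Pool.Agent.TT Polynomial

/-- The representation `R` over `ℂ_[p]` and the representation `π` over the algebraic closure of
`ℚ_ℓ` are compatible: for all prime ideals `𝔓` of the ring of algebraic integers above almost all
primes `q` and all elements `σ` of the Galois group `Gal(Qbar/K)` that induce `x ↦ x ^ q` modulo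
`𝔓`, the characteristic polynomials of `R(σ⁻¹)` and of `π(σ⁻¹)` are the images of one polynomial
with coefficients in `E`. -/
def Compatible {K : Type} [Field K] [Algebra K Qbar] {E : Type} [Field E] {p ℓ : ℕ}
    [Fact p.Prime] [Fact ℓ.Prime] (ip : E →+* ℂ_[p]) (il : E →+* PadicAlgCl ℓ) {d : ℕ}
    (R : (Qbar ≃ₐ[K] Qbar) →* Matrix (Fin d) (Fin d) ℂ_[p]) {V : Type} [AddCommGroup V]
    [Module (PadicAlgCl ℓ) V] [Module.Finite (PadicAlgCl ℓ) V]
    (π : Representation (PadicAlgCl ℓ) (Qbar ≃ₐ[K] Qbar) V) : Prop :=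
  ∃ B : Finset ℕ, ∀ q : ℕ, q.Prime → q ∉ B → ∀ 𝔓 : Ideal (𝓞 Qbar), 𝔓.IsPrime →
    (q : 𝓞 Qbar) ∈ 𝔓 → ∀ σ : Qbar ≃ₐ[K] Qbar,
      (∀ x y : 𝓞 Qbar, (y : Qbar) = σ x → y - x ^ q ∈ 𝔓) →
        ∃ f : E[X], (R σ⁻¹).charpoly = f.map ip ∧ (π σ⁻¹).charpoly = f.map il

end Pool.Agent.UI
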