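import Pool.Agent.Lib_helper46.UI.Defs
import Pool.Agent.Lib_helper28.TE28.Statement

/-!
# Unipotent elements and Tate classes on cyclic covers: definitions
-/

set_option autoImplicit false

namespace Pool.Agent.UI

open NumberField Pool.Agent.TT Pool.Agent.TB Pool.Agent.TF Pool.Agent.RF Polynomial

/-- Representations of degree `d` of the absolute Galois group of `K` over `ℂ_[p]`. -/
abbrev Rep (K : Type) [Field K] [Algebra K Qbar] (p : ℕ) [Fact p.Prime] (d : ℕ) : Type :=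
  (Qbar ≃ₐ[K] Qbar) →* Matrix (Fin d) (Fin d) ℂ_[p]

/-- The representation `R` over `ℂ_[p]` is continuous and has the traces `T(F)`, the character sums
of the family of strata `S` (`K` is embedded in `ℂ_[p]` by `ι`). -/
structure SumRealization {K : Type} [Field K] [Algebra K Qbar] {p : ℕ} [Fact p.Prime] {d : ℕ}
    (R : Rep K p d) (ι : K →+* ℂ_[p]) (m : ℕ) (ζ : 𝓞 K) {s : ℕ} (S : Fin s → Stratum K) :
    Prop where
  continuous : Continuous R
  traces : SumTraces (fun σ => (R σ).trace) ι m ζ S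

/-- The subgroup of the Galois group that is generated by all elements `g` with the following
property: there are a prime `ℓ` and a continuous representation `R` over `ℂ_[ℓ]` with the traces
`T(F)` such that no root of unity other than `1` is an eigenvalue of the `j`-th Tate twist
`R(j)(g)`. -/
noncomputable def rootFreeGroup {K : Type} [Field K] [Algebra K Qbar] (m : ℕ) (ζ : 𝓞 K) {s : ℕ}
    (S : Fin s → Stratum K) (j : ℕ) : Subgroup (Qbar ≃ₐ[K] Qbar) :=
  Subgroup.closure {g | ∃ (ℓ : ℕ) (_ : Fact ℓ.Prime) (ι : K →+* ℂ_[ℓ]) (d : ℕ) (R : Rep K ℓ d),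
    SumRealization R ι m ζ S ∧
      ∀ (x : ℂ_[ℓ]) (n : ℕ), 0 < n → x ^ n = 1 →
        (cycC ℓ g ^ j • R g).charpoly.IsRoot x → x = 1}

/-- The representations `R₁` and `R₂` over `ℂ_[p]` are continuous, and the differences of their
traces are congruent to the numbers of points `N(F)` of the family of strata `S`: for all prime
ideals `𝔓` of the ring of algebraic integers above almost all primes `q`, all finite fields `F` that
contain the residue field of `K` at `𝔓` and all elements `σ` of the Galois group that induce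
`x ↦ x ^ |F|` modulo `𝔓`, the `p`-adic absolute value of `tr R₁(σ⁻¹) - tr R₂(σ⁻¹) - N(F)` is at most
that of `|F| - 1`. -/
structure CardRealization {K : Type} [Field K] [Algebra K Qbar] {p : ℕ} [Fact p.Prime] {d₁ d₂ : ℕ}
    (R₁ : Rep K p d₁) (R₂ : Rep K p d₂) {s : ℕ} (S : Fin s → Stratum K) : Prop where
  continuous₁ : Continuous R₁
  continuous₂ : Continuous R₂
  traces : ∃ B : Finset ℕ, ∀ q : ℕ, q.Prime → q ∉ B → ∀ 𝔓 : Ideal (𝓞 Qbar), 𝔓.IsPrime →
    (q : 𝓞 Qbar) ∈ 𝔓 → ∀ (F : Type) [Field F] [Fintype F] (φ : 𝓞 K →+* F),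
      (∀ x : 𝓞 K, φ x = 0 ↔ algebraMap (𝓞 K) (𝓞 Qbar) x ∈ 𝔓) →
      ∀ σ : Qbar ≃ₐ[K] Qbar, (∀ x y : 𝓞 Qbar, (y : Qbar) = σ x → y - x ^ Fintype.card F ∈ 𝔓) →
        ‖(R₁ σ⁻¹).trace - (R₂ σ⁻¹).trace - (strataCard φ S : ℤ)‖ ≤
          ‖(Fintype.card F : ℂ_[p]) - 1‖

open Classical in
/-- The number of the eigenvalues of the matrix `A` (with multiplicity) that are congruent to `1`. -/
noncomputable def residuallyOne {p : ℕ} [Fact p.Prime] {d : ℕ} (A : Matrix (Fin d) (Fin d) ℂ_[p]) :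
    ℕ :=
  (A.charpoly.roots.filter fun x => ‖x - 1‖ < 1).card

/-- If an open subgroup `H` of the Galois group acts trivially on a subquotient `W₂ / W₁` of the
twist `V(j)` of the representation `π` on `V`, then the dimension of `W₂ / W₁` is at most
`e₁ - e₂`. -/
def TateClassesLE {K : Type} [Field K] [Algebra K Qbar] {ℓ : ℕ} [Fact ℓ.Prime] {V : Type}
    [AddCommGroup V] [Module (PadicAlgCl ℓ) V]
    (π : Representation (PadicAlgCl ℓ) (Qbar ≃ₐ[K] Qbar) V) (j e₁ e₂ : ℕ) : Prop :=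
  ∀ H : Subgroup (Qbar ≃ₐ[K] Qbar), IsOpen (H : Set (Qbar ≃ₐ[K] Qbar)) →
    ∀ W₁ W₂ : Submodule (PadicAlgCl ℓ) V, W₁ ≤ W₂ →
      (∀ σ ∈ H, ∀ x ∈ W₂, cyc ℓ σ ^ j • π σ x - x ∈ W₁) →
        Module.finrank (PadicAlgCl ℓ) W₂ + e₂ ≤ Module.finrank (PadicAlgCl ℓ) W₁ + e₁

end Pool.Agent.UI
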